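import Mathlib
import Pool.Agent.H19.Chains2

set_option autoImplicit false

namespace Pool.Agent.Results.MP_3e56e8_al.Congruence

open Finset Subgroup Pool.Agent.H19.Chains

/-- `N(s - I)`: the number of chains of subgroups of `G` whose orders are `p ^ (s - c)`, `c ∈ I`. -/
noncomputable def N (G : Type) [Group G] (p s : ℕ) (I : Finset ℕ) : ℕ :=
  {C : Finset (Subgroup G) | IsChain (· ≤ ·) (C : Set (Subgroup G)) ∧
    C.image (fun U : Subgroup G => Nat.card U) = I.image fun c => p ^ (s - c)}.ncard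

variable {G : Type} [Group G] [Finite G] [Fintype (Subgroup G)] {p : ℕ} [hp : Fact p.Prime]

def A (p : ℕ) (D : Finset ℕ) (V : Subgroup G) : Prop := ∃ j ∈ D, Nat.card V = p ^ j

omit [Finite G] hp in
lemma M_cj (D : Finset ℕ) (g : G) (X Y : Subgroup G) :
    M (A p D) (cj g X) (cj g Y) = M (A p D) X Y :=
  M_iso _ (fun V => by simp only [A, cj_card]) X Y

open Classical in
noncomputable def B (p : ℕ) (D : Finset ℕ) (u : ℕ) (c : Subgroup G → ℤ) (X : Subgroup G) : ℤ :=
  ∑ Y, if Y ≤ X ∧ Nat.card Y = p ^ u then c Y * M (A p D) X Y else 0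

omit [Fintype (Subgroup G)] hp in
lemma card_lt {Y Z : Subgroup G} (h : Y < Z) : Nat.card Y < Nat.card Z :=
  Set.ncard_lt_ncard (s := (Y : Set G)) (t := Z) (SetLike.coe_ssubset_coe.mpr h)

open Classical in
lemma core {X : Subgroup G} {D : Finset ℕ} {u t : ℕ} {e : ℤ} {c : Subgroup G → ℤ}
    (hD : ∀ Z < X, IsPGroup p Z → p ^ u < Nat.card Z → A p D Z)
    (hγ : ∀ Y ≤ X, IsPGroup p Y → ∀ Q ≤ X ⊓ normalizer (Y : Set G), IsPGroup p Q →
      (Nat.card Q : ℤ) ∣ ∑ᶠ q : Q,
        if A p D (Y ⊔ zpowers (q : G)) ∨ Y ⊔ zpowers (q : G) ≠ X then e else 0)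
    (ht : p ^ t ∣ Nat.card X) (hu : u < t) (hc : ∀ g ∈ X, ∀ Z, c (cj g Z) = c Z) :
    (p : ℤ) ^ (t - u) ∣ e * B p D u c X := by
  have h0 (g) (hg : g ∈ X) (Z) : cj g Z ≤ X ↔ Z ≤ X := by
    conv_lhs => rw [← cj_mem hg, (cj g).le_iff_le]
  have h1 (g) (hg : g ∈ X) (Z) : M (A p D) X (cj g Z) = M (A p D) X Z := by
    conv_lhs => rw [← cj_mem hg, M_cj]
  have h2 := dress (p := p) (X := X) (T := fun Z => Z ≤ X ∧ IsPGroup p Z ∧ p ^ u ≤ Nat.card Z)
    (a := fun Z => if A p D Z ∨ Z ≠ X then e * M (A p D) X Z else 0)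
    (fun g hg Z => by simp only [h0 g hg, pg_iff, cj_card]) (fun g hg Z => by
      have : cj g Z = X ↔ Z = X := by conv_lhs => rw [← cj_mem hg, (cj g).injective.eq_iff]
      exact if_congr (by simp only [A, cj_card, Ne, this]) (by rw [h1 g hg]) rfl)
    fun Y hY Q hQ hQp => by
    refine (hγ Y hY.1 hY.2.1 Q hQ hQp).trans (dvd_of_eq (finsum_congr fun q => ?_))
    have hW : IsPGroup p (Y ⊔ zpowers (q : G) :) :=
      hY.2.1.to_sup_of_normal_left' (pg_zpowers hQp q) (zpowers_le.mpr (hQ q.2).2)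
    have hX : Y ⊔ zpowers (q : G) ≤ X := sup_le hY.1 (zpowers_le.mpr (hQ q.2).1)
    have hu : p ^ u ≤ Nat.card (Y ⊔ zpowers (q : G) :) := hY.2.2.trans (card_le_of_le le_sup_left)
    generalize Y ⊔ zpowers (q : G) = W at hW hX hu
    split_ifs with h
    · refine ((mul_one e).symm.trans (congrArg (e * ·)
        (eq_sub_iff_add_eq.mp (M_rec (A p D) X W)).symm)).trans ?_
      rw [mul_add, mul_sum, ← if_pos (mem_univ W) (t := e * M _ X W)
        (e := 0), ← sum_ite_eq' _ _ fun _ => e * M (A p D) X W, ← sum_add_distrib]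
      refine sum_congr rfl fun Z _ => ?_
      by_cases c1 : Z = W
      · subst c1; simp [hW, hX, hu, h]
      by_cases c2 : W < Z ∧ Z ≤ X ∧ A p D Z
      · obtain ⟨j, -, hj⟩ := id c2.2.2
        simp [c1, c2, c2.1.le, IsPGroup.of_card hj, hu.trans (card_lt c2.1).le]
      rw [if_neg c2, if_neg c1, mul_zero, add_zero]
      split_ifs with c3 c4
      · have := c3.2.lt_of_ne' c1
        exact absurd ⟨this, c3.1.1, c4.elim id fun c4 =>
          hD Z (c3.1.1.lt_of_ne c4) c3.1.2.1 (hu.trans_lt (card_lt this))⟩ c2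
      all_goals rfl
    refine (sum_eq_zero fun Z _ => ?_).symm
    push Not at h
    split_ifs with c3 c4
    · obtain rfl := c3.1.1.antisymm (h.2.ge.trans c3.2)
      exact absurd c4 (by simpa [h.2] using h.1)
    all_goals rfl
  rw [B, mul_sum]
  refine dvd_sum_cj X _ (fun g hg Z => by simp only [h0 g hg, h1 g hg, hc g hg, cj_card])
    fun Y => ?_
  split_ifs with h
  · have := to_index ht h.2 (h2 Y ⟨h.1, .of_card h.2, h.2.ge⟩)
    rw [if_pos (.inr (by
      rintro rfl
      exact hu.not_ge ((Nat.pow_dvd_pow_iff_le_right hp.out.one_lt).mp (h.2 ▸ ht))))] at this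
    exact this.trans ⟨c Y, by ring⟩
  simp

lemma main {X : Subgroup G} {t : ℕ} (ht : p ^ t ∣ Nat.card X) (ht' : ¬ p ^ (t + 1) ∣ Nat.card X)
    (D : Finset ℕ) (u : ℕ) (c : Subgroup G → ℤ) (hc : ∀ g ∈ X, ∀ Z, c (cj g Z) = c Z) :
    (p : ℤ) ^ #(Ioc u t ∩ D) ∣ B p D u c X := by
  classical
  have hj (Z) (hZ : Z ≤ X) (j) (h : Nat.card Z = p ^ j) : j ≤ t := by
    by_contra! c
    exact ht' ((pow_dvd_pow p c).trans (h ▸ card_dvd_of_le hZ))
  induction h : #(Ioc u t \ D) using Nat.strong_induction_on generalizing D u c with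
  | h n ih =>
    subst h
    rcases (Ioc u t \ D).eq_empty_or_nonempty with h | h
    · rcases le_or_gt t u with hu | hu
      · simp [Ioc_eq_empty_of_le hu]
      have h1 (Z) (hZ : Z ≤ X) (hZp : IsPGroup p Z) (hZu : p ^ u < Nat.card Z) : A p D Z := by
        obtain ⟨j, e⟩ := IsPGroup.iff_card.mp hZp
        exact ⟨j, sdiff_eq_empty_iff_subset.mp h (mem_Ioc.mpr ⟨(Nat.pow_lt_pow_iff_right
          hp.out.one_lt).mp (e ▸ hZu), hj Z hZ j e⟩), e⟩
      refine (pow_dvd_pow _ ((card_le_card inter_subset_left).trans_eq (Nat.card_Ioc _ _))).trans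
        ((core (e := 1) (fun Z hZ => h1 Z hZ.le) (fun Y hY hYp Q hQ hQp => ?_) ht hu hc).trans
          (by rw [one_mul]))
      have := Fintype.ofFinite Q
      rw [finsum_congr fun q => if_pos (or_iff_not_imp_right.mpr fun e => ?_),
        finsum_eq_sum_of_fintype]
      · simp
      rw [not_not] at e
      refine h1 _ e.le (hYp.to_sup_of_normal_left' (pg_zpowers hQp q)
        (zpowers_le.mpr (hQ q.2).2)) ?_
      rw [e]
      exact (Nat.pow_lt_pow_right hp.out.one_lt hu).trans_le (Nat.le_of_dvd Nat.card_pos ht)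
    obtain ⟨r, hr, hm⟩ := exists_min_image _ id h
    simp only [mem_sdiff, mem_Ioc, id, and_imp] at hr hm
    have hA : A p (insert r D) = fun V : Subgroup G => A p D V ∨ Nat.card V = p ^ r := by
      ext V; simp [A, or_comm]
    have hR (V : Subgroup G) (h : A p D V) : ¬ Nat.card V = p ^ r := fun e => by
      obtain ⟨j, hj, e'⟩ := h
      exact hr.2 (Nat.pow_right_injective hp.out.two_le (e'.symm.trans e) ▸ hj)
    have h1 (Z) (hZ : Z ≤ X) (e : Nat.card Z = p ^ r) : (p : ℤ) ^ (r - u - 1) ∣ B p D u c Z := by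
      have := core (X := Z) (D := D) (e := p) (fun V hV hVp hVu => ?_) (fun Y hY hYp Q hQ hQp => ?_)
        e.symm.dvd hr.1.1 fun g hg => hc g (hZ hg)
      · rw [show r - u = r - u - 1 + 1 by omega, pow_succ'] at this
        exact Int.dvd_of_mul_dvd_mul_left (by exact_mod_cast hp.out.ne_zero) this
      · obtain ⟨j, e'⟩ := IsPGroup.iff_card.mp hVp
        have h2 := card_lt hV
        rw [e', e, Nat.pow_lt_pow_iff_right hp.out.one_lt] at h2
        rw [e', Nat.pow_lt_pow_iff_right hp.out.one_lt] at hVu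
        exact ⟨j, by_contra fun hj => h2.not_ge (hm j hVu (by omega) hj), e'⟩
      refine (gamma hQ hY hQp).trans (dvd_of_eq (finsum_congr fun q => if_congr ?_ rfl rfl))
      exact ⟨.inr, fun h => h.elim (fun h e' => hR _ h (e' ▸ e)) id⟩
    have h2 : B p D u c X = B p (insert r D) u c X + p ^ (r - u - 1) *
        B p (insert r D) r (fun Z => B p D u c Z / p ^ (r - u - 1)) X := by
      have : (p : ℤ) ^ (r - u - 1) * B p (insert r D) r (fun Z => B p D u c Z / p ^ (r - u - 1)) X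
          = ∑ Z, ∑ Y, if Y ≤ X ∧ Nat.card Y = p ^ u then c Y * (if Y < Z ∧ Z ≤ X ∧
            Nat.card Z = p ^ r then M (A p D) Z Y * M (A p (insert r D)) X Z else 0) else 0 := by
        rw [B, mul_sum]
        refine sum_congr rfl fun Z _ => ?_
        split_ifs with hZ
        · rw [← mul_assoc, Int.mul_ediv_cancel' (h1 Z hZ.1 hZ.2), B, sum_mul]
          refine sum_congr rfl fun Y _ => ?_
          by_cases hY : Y ≤ Z ∧ Nat.card Y = p ^ u
          · rw [if_pos hY, if_pos ⟨hY.1.trans hZ.1, hY.2⟩, if_pos ⟨hY.1.lt_of_ne fun e => hr.1.1.ne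
              (Nat.pow_right_injective hp.out.two_le (hY.2.symm.trans (e ▸ hZ.2))), hZ⟩, mul_assoc]
          rw [if_neg hY]
          split_ifs with c1 c2
          · exact absurd ⟨c2.1.le, c1.2⟩ hY
          all_goals simp
        simp [hZ]
      rw [this, sum_comm, B, B, ← sum_add_distrib]
      refine sum_congr rfl fun Y _ => ?_
      split_ifs with hY
      · rw [M_or hR X Y, ← hA, mul_add, mul_sum]
        congr! 4
      simp
    have hs (v) (hv : u ≤ v) : #(Ioc v t \ insert r D) < #(Ioc u t \ D) :=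
      card_lt_card ⟨sdiff_subset_sdiff (Ioc_subset_Ioc_left hv) (subset_insert _ _),
        fun h => by simpa using h (mem_sdiff.mpr ⟨mem_Ioc.mpr hr.1, hr.2⟩)⟩
    rw [h2]
    refine dvd_add ((pow_dvd_pow _ (card_le_card (inter_subset_inter_left
      (subset_insert _ _)))).trans (ih _ (hs u le_rfl) _ _ _ hc rfl)) (dvd_trans ?_
        (mul_dvd_mul_left _ (ih _ (hs r hr.1.1.le) _ _ _ (fun g hg Z => ?_) rfl)))
    · rw [← pow_add, ← Nat.card_Ioo]
      refine pow_dvd_pow _ ((card_le_card fun j hj => ?_).trans (card_union_le _ _))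
      simp only [mem_inter, mem_union, mem_Ioc, mem_Ioo, mem_insert] at hj ⊢
      rcases lt_trichotomy j r with c | c | c
      · exact .inl ⟨hj.1.1, c⟩
      · exact absurd (c ▸ hj.2) hr.2
      exact .inr ⟨⟨c, hj.1.2⟩, .inr hj.2⟩
    congr 1
    refine (Fintype.sum_equiv (cj g).toEquiv _ _ fun Y => ?_).symm
    simp [M_cj, cj_card, hc g hg]

lemma eu_dvd (D : Finset ℕ) (hD : ∀ j ∈ D, p ^ j ∣ Nat.card G) :
    (p : ℤ) ^ #D ∣ eu (A (G := G) p D) := by
  classical
  by_cases h : 0 ∈ D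
  · have h1 := M_rec (A (G := G) p D) ⊤ ⊥
    rw [eu_rec, ← add_sum_erase _ _ (mem_univ ⊥), if_pos ⟨0, h, by simp⟩]
    rw [← add_sum_erase _ _ (mem_univ ⊥), if_neg (by simp), sum_congr rfl (g := fun Z =>
      if A p D Z then eu (fun V => Z < V ∧ A p D V) else 0) fun Z hZ => by
        simp [M, (mem_erase.mp hZ).1.bot_lt]] at h1
    simp only [M, le_top, true_and] at h1
    rw [h1]; simp
  obtain ⟨t, m, hm, e⟩ := Nat.exists_eq_pow_mul_and_not_dvd (Nat.card_pos (α := G)).ne' p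
    hp.out.ne_one
  have h2 : ¬ p ^ (t + 1) ∣ Nat.card G := fun c =>
    hm (Nat.dvd_of_mul_dvd_mul_left (pow_pos hp.out.pos t) (by rwa [← pow_succ, ← e]))
  have := main (p := p) (X := (⊤ : Subgroup G)) (t := t) (by simp [e]) (by simpa using h2) D 0 (fun _ => 1)
    fun _ _ _ => rfl
  rw [inter_eq_right.mpr fun j hj => mem_Ioc.mpr ⟨Nat.pos_of_ne_zero fun c => h (c ▸ hj),
    not_lt.mp fun c => h2 ((pow_dvd_pow p c).trans (hD j hj))⟩, B] at this
  simp only [le_top, true_and, pow_zero, Subgroup.card_eq_one, sum_ite_eq', mem_univ, if_true,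
    one_mul, M] at this
  convert this using 3 with V
  refine ⟨fun hV => ⟨bot_lt_iff_ne_bot.mpr ?_, hV⟩, And.right⟩
  rintro rfl
  obtain ⟨j, hj, e⟩ := hV
  exact h (Nat.pow_right_injective hp.out.two_le (by simpa using e : p ^ 0 = p ^ j) ▸ hj)

omit [Fintype (Subgroup G)] hp in
/-- The congruence `S_J(G) ≡ 1 (mod p ^ |J|)` for every `J ⊆ [0, s]`. -/
theorem result (G : Type) [Group G] [Finite G] (p : ℕ) (hp : p.Prime) (s : ℕ)
    (hs : p ^ s ∣ Nat.card G) (J : Finset ℕ) (hJ : ∀ c ∈ J, c ≤ s) :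
    ∑ I ∈ J.powerset.erase ∅, (-1) ^ (#I + 1) * (N G p s I : ℤ) ≡ 1 [ZMOD p ^ #J] := by
  classical
  have := Fact.mk hp
  have := Fintype.ofFinite (Subgroup G)
  have h1 : Set.InjOn (s - ·) J := fun a ha b hb e => by
    have := hJ a ha; have := hJ b hb; simp only at e; omega
  have h2 : Set.InjOn (fun c => p ^ (s - c)) J := fun a ha b hb e =>
    h1 ha hb (Nat.pow_right_injective hp.two_le e)
  have h3 := eu_dvd (G := G) (p := p) (J.image (s - ·)) (by
    simpa using fun j _ => (pow_dvd_pow p (Nat.sub_le s j)).trans hs)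
  rw [card_image_of_injOn h1, eu, ← sum_fiberwise_of_maps_to (g := fun C => C.image
    fun U : Subgroup G => Nat.card U) (t := (J.image fun c => p ^ (s - c)).powerset) fun C hC => by
      simpa [A, image_subset_iff, eq_comm] using (mem_filter.mp hC).2.2, powerset_image,
    sum_image fun I hI K hK e => (image_eq_image_iff_of_injOn h2 (mem_powerset.mp hI)
      (mem_powerset.mp hK)).mp e, sum_congr rfl (g := fun I => (-1) ^ #I * (N G p s I : ℤ))
        fun I hI => ?_, ← add_sum_erase _ _ (empty_mem_powerset J)] at h3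
  · refine (Int.modEq_iff_dvd.mpr ?_)
    convert h3 using 1
    have : N G p s ∅ = 1 := by
      rw [N, Set.ncard_eq_one]
      exact ⟨∅, by ext C; simp +contextual [and_iff_right_of_imp]⟩
    simp [this, pow_succ, sub_eq_add_neg]
  rw [sum_congr rfl (g := fun _ => (-1) ^ #I) fun C hC => ?_, sum_const, nsmul_eq_mul, mul_comm, N]
  · congr 2
    rw [← Set.ncard_coe_finset]
    refine congrArg _ (Set.ext fun C => ?_)
    simp only [coe_filter, mem_filter, mem_univ, true_and, Set.mem_ofPred_eq]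
    refine ⟨fun h => ⟨h.1.1, h.2⟩, fun h => ⟨⟨h.1, fun V hV => ?_⟩, h.2⟩⟩
    obtain ⟨c, hc, e⟩ := mem_image.mp (h.2 ▸ mem_image_of_mem _ hV)
    exact ⟨_, mem_image_of_mem _ (mem_powerset.mp hI hc), e.symm⟩
  simp only [mem_filter, mem_univ, true_and] at hC
  rw [← card_image_of_injOn (h2.mono (coe_subset.mpr (mem_powerset.mp hI))), ← hC.2,
    card_image_of_injOn fun U hU V hV e => by_contra fun c => ?_]
  rcases hC.1.1 hU hV c with h | h
  exacts [(card_lt (h.lt_of_ne c)).ne e, (card_lt (h.lt_of_ne' c)).ne' e]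

end Pool.Agent.Results.MP_3e56e8_al.Congruence
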